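import Mathlib
import Pool.Agent.NH93.Rec.Rep

/-!
# MP_425be5_nt: the records of `S_n(2ξ)` form a `ξ`-Ostrowski automatic set, for every
quadratic irrational `ξ > 0`.

The partial quotients `aq ξ n`, the denominators `qq ξ n`, the digit function `dig` and the
representation predicate `IsOstrowski` are defined in `Pool.Agent.NH93.Rec.CF` and
`Pool.Agent.NH93.Rec.Rep`.
-/

set_option autoImplicit false

namespace Pool.Agent.Results.MP_425be5_nt.RecordsAutomatic

open Pool.Agent.NH93.Rec

/-- `S_n(x) = ∑_{j=1}^n (-1)^⌊j x⌋` -/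
noncomputable def walk (x : ℝ) (n : ℕ) : ℤ :=
  ∑ j ∈ Finset.Icc 1 n, (((⌊(j : ℝ) * x⌋).negOnePow : ℤˣ) : ℤ)

/-- `r` is a record of `(S_n(x))_{n ≥ 0}` -/
def IsRecord (x : ℝ) (r : ℕ) : Prop := ∀ n < r, walk x r ≠ walk x n

/-- the set `A` is `ξ`-Ostrowski automatic: for some deterministic finite automaton over a finite
alphabet of digits, every `N` has exactly one Ostrowski representation, this representation is a
word over the alphabet, and the automaton, reading it (most significant digit first), accepts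
exactly when `N ∈ A` -/
def OstrowskiAutomatic (ξ : ℝ) (A : Set ℕ) : Prop :=
  ∃ (d n : ℕ) (M : DFA (Fin d) (Fin n)), ∀ N : ℕ, ∃ w : List (Fin d),
    IsOstrowski ξ (w.map Fin.val) N ∧ (∀ w' : List ℕ, IsOstrowski ξ w' N → w' = w.map Fin.val) ∧
      (w ∈ M.accepts ↔ N ∈ A)

variable {ξ : ℝ}

theorem walk_zero (x : ℝ) : walk x 0 = 0 := by simp [walk]

theorem walk_succ (x : ℝ) (n : ℕ) :
    walk x (n + 1) = walk x n + (((⌊((n + 1 : ℕ) : ℝ) * x⌋).negOnePow : ℤˣ) : ℤ) := by
  unfold walk
  rw [Finset.sum_Icc_succ_top (by omega)]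

theorem ff_one (y : ℝ) : ff 1 y = ((⌊2 * y⌋.negOnePow : ℤˣ) : ℤ) := by
  unfold ff
  split_ifs with h
  · rw [Int.negOnePow_even _ h]; rfl
  · rw [Int.negOnePow_odd _ (Int.not_even_iff_odd.1 h)]; rfl

theorem walk_eq (n : ℕ) : walk (2 * ξ) n = FF 1 ξ 0 n := by
  induction n with
  | zero => rw [walk_zero, FF_zero]
  | succ n ih =>
    rw [walk_succ, FF_succ, ih, ff_one]
    congr 4
    push_cast
    ring

theorem ff_neg (y : ℝ) : ff (-1) y = -ff 1 y := by
  unfold ff; split_ifs <;> simp

theorem FF_neg (x : ℝ) (n : ℕ) : FF (-1) ξ x n = -FF 1 ξ x n := by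
  unfold FF
  rw [← Finset.sum_neg_distrib]
  refine Finset.sum_congr rfl fun j _ => ff_neg _

/-- a walk with steps `±1` avoiding a value stays on one side of it -/
theorem one_side (S : ℕ → ℤ) (hS : ∀ n, |S (n + 1) - S n| = 1) (c : ℤ) (N : ℕ)
    (h : ∀ n < N, c ≠ S n) : (∀ n < N, S n < c) ∨ (∀ n < N, c < S n) := by
  induction N with
  | zero => exact Or.inl fun n hn => absurd hn (by omega)
  | succ N ih =>
    rcases Nat.eq_zero_or_pos N with rfl | hN
    · rcases lt_or_gt_of_ne (h 0 (by omega)) with h1 | h1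
      · refine Or.inr fun n hn => ?_
        obtain rfl : n = 0 := by omega
        exact h1
      · refine Or.inl fun n hn => ?_
        obtain rfl : n = 0 := by omega
        exact h1
    · obtain ⟨m, rfl⟩ : ∃ m, N = m + 1 := ⟨N - 1, by omega⟩
      have hst := hS m
      have hne := h (m + 1) (by omega)
      rcases ih (fun n hn => h n (by omega)) with h1 | h1
      · left
        intro n hn
        by_cases hc : n < m + 1
        · exact h1 n hc
        · obtain rfl : n = m + 1 := by omega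
          have h2 := h1 m (by omega)
          have h3 := (abs_eq (by norm_num : (0 : ℤ) ≤ 1)).1 hst
          omega
      · right
        intro n hn
        by_cases hc : n < m + 1
        · exact h1 n hc
        · obtain rfl : n = m + 1 := by omega
          have h2 := h1 m (by omega)
          have h3 := (abs_eq (by norm_num : (0 : ℤ) ≤ 1)).1 hst
          omega

theorem isRecord_iff (N : ℕ) : IsRecord (2 * ξ) N ↔ Mx 1 ξ N ∨ Mx (-1) ξ N := by
  unfold IsRecord Mx
  constructor
  · intro h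
    have h' : ∀ n < N, FF 1 ξ 0 N ≠ FF 1 ξ 0 n := by
      intro n hn
      rw [← walk_eq, ← walk_eq]
      exact h n hn
    rcases one_side (FF 1 ξ 0) (FF_step_abs (by norm_num) 0) _ N h' with h1 | h1
    · exact Or.inl h1
    · right
      intro m hm
      rw [FF_neg, FF_neg]
      have := h1 m hm
      omega
  · rintro (h | h) n hn heq
    · have := h n hn
      rw [walk_eq, walk_eq] at heq
      omega
    · have := h n hn
      rw [FF_neg, FF_neg] at this
      rw [walk_eq, walk_eq] at heq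
      omega

theorem digit_le {A : ℕ} (hA : ∀ k, aq ξ (k + 1) ≤ A) (t : List ℕ) (k : ℕ) (h : VV ξ k t) :
    ∀ x ∈ t, x ≤ A := by
  induction t generalizing k with
  | nil => intro x hx; simp at hx
  | cons b t ih =>
    intro x hx
    rcases List.mem_cons.1 hx with rfl | hx
    · exact h.1.trans (hA k)
    · exact ih (k + 1) h.2.2.2 x hx

/-- **MP_425be5_nt, Q1 (affirmative):** for every quadratic irrational `ξ > 0` the set of records
of `(S_n(2ξ))_{n ≥ 0}` is `ξ`-Ostrowski automatic. -/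
theorem result (ξ : ℝ) (hpos : 0 < ξ) (hirr : Irrational ξ)
    (hquad : ∃ a b c : ℤ, a ≠ 0 ∧ (a : ℝ) * ξ ^ 2 + b * ξ + c = 0) :
    OstrowskiAutomatic ξ {r | IsRecord (2 * ξ) r} := by
  obtain ⟨a, b, c, ha, h⟩ := hquad
  obtain ⟨Z, hZf, hZ⟩ := cq_finite hpos hirr a b c ha h
  obtain ⟨A, hA1, hA2⟩ := exists_A hpos hirr Z hZf hZ
  have h1 := LL_regular (e := 1) (by norm_num) hpos hirr Z hZf hZ A hA1
  have h2 := LL_regular (e := -1) (by norm_num) hpos hirr Z hZf hZ A hA1
  obtain ⟨σ, hσ, M, hM⟩ := h1.add h2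
  refine ⟨A + 1, Fintype.card σ, (DFA.reindex (Fintype.equivFin σ) M).comap Fin.val, fun N => ?_⟩
  obtain ⟨w0, hw0, huniq⟩ := existsUnique_rep hpos hirr N
  have hw0' := (isOstrowski_iff hpos hirr w0 N).1 hw0
  have hlt : ∀ x ∈ w0, x < A + 1 := by
    intro x hx
    have := digit_le hA2 w0.reverse 0 hw0'.1 x (List.mem_reverse.2 hx)
    omega
  lift w0 to List (Fin (A + 1)) using hlt with w
  refine ⟨w, hw0, fun w' hw' => huniq w' hw', ?_⟩
  have h4 : w ∈ ((DFA.reindex (Fintype.equivFin σ) M).comap Fin.val).accepts ↔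
      w.map Fin.val ∈ LL 1 ξ + LL (-1) ξ := by
    rw [← hM, ← DFA.accepts_reindex M (Fintype.equivFin σ), DFA.mem_accepts, DFA.mem_accepts,
      DFA.eval_comap]
    exact Iff.rfl
  have h3 : w.map Fin.val ∈ LL 1 ξ + LL (-1) ξ ↔ Mx 1 ξ N ∨ Mx (-1) ξ N := by
    rw [Language.mem_add, mem_LL, mem_LL]
    obtain ⟨g1, g2, g3⟩ := hw0'
    rw [← g3]
    constructor
    · rintro (hh | hh)
      · exact Or.inl hh.2.2
      · exact Or.inr hh.2.2
    · rintro (hh | hh)
      · exact Or.inl ⟨g1, g2, hh⟩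
      · exact Or.inr ⟨g1, g2, hh⟩
  exact h4.trans (h3.trans (isRecord_iff N).symm)

end Pool.Agent.Results.MP_425be5_nt.RecordsAutomatic
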